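import Pool.Agent.N699.AO.Stm

/-! Project AO (helper699), leaves FACT and QUAA (helper505). -/

set_option autoImplicit false

namespace Pool.Agent.N505.AO

open Finset Pool.Agent.N699.AO

theorem t_FACT : Pool.Agent.N699.AO.FACT := by
  intro k c q hc hk hq hdvd
  obtain ⟨c', rfl⟩ := hk
  haveI : Fact q.Prime := ⟨hq⟩
  have h1 : 2 ^ (8 * (2 ^ k * c')) + 2 ^ (4 * (2 ^ k * c') + 1) + 1 =
      (2 ^ (4 * (2 ^ k * c')) + 1) ^ 2 := by
    have : 8 * (2 ^ k * c') = 4 * (2 ^ k * c') + 4 * (2 ^ k * c') := by ring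
    rw [this, pow_add, pow_succ]
    ring
  rw [h1] at hdvd
  have h2 : q ∣ 2 ^ (4 * (2 ^ k * c')) + 1 := hq.dvd_of_dvd_pow hdvd
  have hq2 : q ≠ 2 := by
    rintro rfl
    have h3 : (2 : ℕ) ∣ 2 ^ (4 * (2 ^ k * c')) := dvd_pow_self 2 (by omega)
    have h4 := (Nat.dvd_add_right h3).1 h2
    omega
  have h3 : ((2 : ZMod q)) ^ (4 * (2 ^ k * c')) = -1 := by
    have h4 : ((2 ^ (4 * (2 ^ k * c')) + 1 : ℕ) : ZMod q) = 0 := (ZMod.natCast_eq_zero_iff _ _).2 h2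
    push_cast at h4
    exact eq_neg_of_add_eq_zero_left h4
  haveI : Fact (2 < q) := ⟨lt_of_le_of_ne hq.two_le (Ne.symm hq2)⟩
  have hne : (-1 : ZMod q) ≠ 1 := ZMod.neg_one_ne_one
  have h4 : ((2 : ZMod q) ^ c') ^ 2 ^ (k + 2) = -1 := by
    rw [← pow_mul, ← h3]
    congr 1
    rw [pow_add]; ring
  have h5 : ¬ ((2 : ZMod q) ^ c') ^ 2 ^ (k + 2) = 1 := by rw [h4]; exact hne
  have h6 : ((2 : ZMod q) ^ c') ^ 2 ^ (k + 2 + 1) = 1 := by
    rw [pow_succ 2 (k + 2), pow_mul, h4]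
    norm_num
  have h7 := orderOf_eq_prime_pow h5 h6
  have h8 : ((2 : ZMod q) ^ c') ≠ 0 := by
    intro h0
    rw [h0, zero_pow (by positivity)] at h6
    exact zero_ne_one h6
  have h9 := ZMod.orderOf_dvd_card_sub_one h8
  rw [h7] at h9
  have h10 := Nat.le_of_dvd (by have := hq.two_le; omega) h9
  have h11 : 2 ^ (k + 3) = 2 ^ (k + 2 + 1) := rfl
  have := hq.two_le
  omega

theorem quads_finite (B : ℝ) (n : ℕ) : (quads B n).Finite := by
  refine Set.Finite.subset ((range (n + 1) ×ˢ (range (n + 1) ×ˢ (range (n + 1) ×ˢ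
    range (n + 1)))).finite_toSet) ?_
  rintro ⟨x, y, z, w⟩ ⟨h, -⟩
  simp only at h
  simp only [Finset.coe_product, Set.mem_prod, Finset.coe_range, Set.mem_Iio]
  have hx := Nat.le_self_pow (n := 2) (by norm_num) x
  have hy := Nat.le_self_pow (n := 2) (by norm_num) y
  have hz := Nat.le_self_pow (n := 2) (by norm_num) z
  have hw := Nat.le_self_pow (n := 2) (by norm_num) w
  refine ⟨?_, ?_, ?_, ?_⟩ <;> omega

theorem t_QUAA : Pool.Agent.N699.AO.QUAA := by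
  intro hF k M n B hM hB ν hν
  classical
  let f : ℕ × ℕ × ℕ → ℕ × ℕ × ℕ × ℕ := fun p =>
    (4 * (2 ^ k * p.1) + p.2.1, 4 * (2 ^ k * p.1) - p.2.1, 2 * (2 ^ k * p.1) + 1 + p.2.2,
      2 * (2 ^ k * p.1) - p.2.2)
  have hbox : ∀ p ∈ box k M, 20 * M < 2 ^ k * p.1 ∧ p.2.1 ≤ 30 * M ∧ p.2.2 ≤ 40 * M := by
    intro p hp
    unfold Pool.Agent.N699.AO.box SA at hp
    rw [Finset.mem_product, Finset.mem_product, Finset.mem_filter, Finset.mem_Ioc,
      Finset.mem_Ioc] at hp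
    exact ⟨hp.1.2.1, hp.2.1.2, hp.2.2.2⟩
  have hinj : Set.InjOn f (((box k M).filter (fun p => (val k p : ℤ) = ν) : Finset _) :
      Set (ℕ × ℕ × ℕ)) := by
    rintro ⟨a, s, t⟩ hp ⟨a', s', t'⟩ hp' h
    rw [Finset.mem_coe, Finset.mem_filter] at hp hp'
    obtain ⟨e1, e2, e3⟩ := hbox _ hp.1
    obtain ⟨e1', e2', e3'⟩ := hbox _ hp'.1
    simp only at e1 e2 e3 e1' e2' e3'
    simp only [f, Prod.mk.injEq] at h
    obtain ⟨h1, h2, h3, h4⟩ := h
    have hc : 2 ^ k * a = 2 ^ k * a' := by omega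
    have ha : a = a' := Nat.eq_of_mul_eq_mul_left (by positivity) hc
    have hs : s = s' := by omega
    have ht : t = t' := by omega
    rw [ha, hs, ht]
  unfold rr
  rw [← Finset.card_image_of_injOn hinj, ← Set.ncard_coe_finset]
  refine Set.ncard_le_ncard ?_ (quads_finite B n)
  intro r hr
  rw [Finset.mem_coe, Finset.mem_image] at hr
  obtain ⟨⟨a, s, t⟩, hp, rfl⟩ := hr
  rw [Finset.mem_filter] at hp
  obtain ⟨e1, e2, e3⟩ := hbox _ hp.1
  have hval := hp.2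
  simp only at e1 e2 e3
  obtain ⟨c, hc⟩ : ∃ c, c = 2 ^ k * a := ⟨_, rfl⟩
  have hk : 2 ^ k ∣ c := ⟨a, hc⟩
  unfold Pool.Agent.N699.AO.val at hval
  simp only [f] at hval ⊢
  rw [← hc] at e1 hval ⊢
  obtain ⟨u, hu⟩ : ∃ u, 4 * c = s + u := ⟨4 * c - s, by omega⟩
  obtain ⟨v, hv⟩ : ∃ v, 2 * c = t + v := ⟨2 * c - t, by omega⟩
  have hu' : 4 * c - s = u := by omega
  have hv' : 2 * c - t = v := by omega
  refine ⟨?_, ?_⟩
  · show n = (4 * c + s) ^ 2 + (4 * c - s) ^ 2 + (2 * c + 1 + t) ^ 2 + (2 * c - t) ^ 2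
    rw [hu', hv']
    zify
    have hu2 : (u : ℤ) = 4 * c - s := by omega
    have hv2 : (v : ℤ) = 2 * c - t := by omega
    rw [hν, ← hval, hu2, hv2]
    push_cast
    ring
  · intro q hq hqd
    simp only at hqd
    have e5 : 4 * c + s + (4 * c - s) = 8 * c := by omega
    have e6 : 2 * c + 1 + t + (2 * c - t) = 4 * c + 1 := by omega
    rw [e5, e6] at hqd
    have h7 := hF k c q (by omega) hk hq hqd
    refine lt_of_le_of_lt hB ?_
    exact_mod_cast h7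

end Pool.Agent.N505.AO
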